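import Pool.Agent.MP_920d98_co.Log

set_option autoImplicit false

/-!
Increments of `log (z - a)` along arcs, and winding sums of closed chains of arcs.
-/

namespace Pool.Agent.MP_920d98_co

open Complex Set Topology Metric Filter

/-- `G` is a continuous logarithm of `Γ - a` on `[s, t]`. -/
def IsLift (Γ : ℝ → ℂ) (s t : ℝ) (a : ℂ) (G : ℝ → ℂ) : Prop :=
  ContinuousOn G (Icc s t) ∧ ∀ x ∈ Icc s t, exp (G x) = Γ x - a

open Classical in
/-- increment of `log (z - a)` along `Γ` from `s` to `t` -/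
noncomputable def inc (Γ : ℝ → ℂ) (s t : ℝ) (a : ℂ) : ℂ :=
  if h : ∃ G, IsLift Γ s t a G then h.choose t - h.choose s else 0

variable {Γ : ℝ → ℂ} {s t : ℝ} {a b : ℂ}

theorem IsLift.inc_eq {G : ℝ → ℂ} (h : IsLift Γ s t a G) (hst : s ≤ t) :
    inc Γ s t a = G t - G s := by
  have hex : ∃ G, IsLift Γ s t a G := ⟨G, h⟩
  rw [inc, dif_pos hex]
  have h' := hex.choose_spec
  have := const_of_exp isPreconnected_Icc h'.1 h.1
    (fun x hx => (h'.2 x hx).trans (h.2 x hx).symm) (right_mem_Icc.2 hst) (left_mem_Icc.2 hst)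
  linear_combination this

theorem exists_lift (hΓ : Continuous Γ) (hst : s ≤ t) (ha : a ∉ Γ '' Icc s t) :
    ∃ G, IsLift Γ s t a G := by
  obtain ⟨L, hL, hL'⟩ := exists_log_univ (f := fun x : ℝ => Γ (projIcc s t hst x) - a)
    ((hΓ.comp (continuous_subtype_val.comp continuous_projIcc)).sub continuous_const)
    fun x h => ha ⟨_, (projIcc s t hst x).2, sub_eq_zero.1 h⟩
  exact ⟨L, hL.continuousOn, fun x hx => by rw [hL', projIcc_of_mem hst hx]⟩

theorem IsLift.mono {G : ℝ → ℂ} (h : IsLift Γ s t a G) {s' t' : ℝ} (hs : s ≤ s') (ht : t' ≤ t) :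
    IsLift Γ s' t' a G :=
  ⟨h.1.mono (Icc_subset_Icc hs ht), fun x hx => h.2 x (Icc_subset_Icc hs ht hx)⟩

theorem inc_add (hΓ : Continuous Γ) {u : ℝ} (hst : s ≤ t) (htu : t ≤ u)
    (ha : a ∉ Γ '' Icc s u) : inc Γ s t a + inc Γ t u a = inc Γ s u a := by
  obtain ⟨G, hG⟩ := exists_lift hΓ (hst.trans htu) ha
  rw [hG.inc_eq (hst.trans htu), (hG.mono le_rfl htu).inc_eq hst, (hG.mono hst le_rfl).inc_eq htu]
  ring

theorem inc_rev (hΓ : Continuous Γ) (hst : s ≤ t) (ha : a ∉ Γ '' Icc s t) :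
    inc (fun x => Γ (-x)) (-t) (-s) a = -inc Γ s t a := by
  obtain ⟨G, hG⟩ := exists_lift hΓ hst ha
  have hm : ∀ x ∈ Icc (-t) (-s), -x ∈ Icc s t := fun x hx => ⟨le_neg.1 hx.2, neg_le.1 hx.1⟩
  have : IsLift (fun x => Γ (-x)) (-t) (-s) a fun x => G (-x) :=
    ⟨hG.1.comp continuous_neg.continuousOn hm, fun x hx => hG.2 _ (hm x hx)⟩
  rw [this.inc_eq (neg_le_neg hst), hG.inc_eq hst]
  simp

/-- a parametrised arc -/
structure Arc where
  Γ : ℝ → ℂ
  s : ℝ
  t : ℝ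
  cont : Continuous Γ
  le : s ≤ t

namespace Arc

/-- the points of the arc -/
def im (A : Arc) : Set ℂ := A.Γ '' Icc A.s A.t
/-- the initial point -/
def ini (A : Arc) : ℂ := A.Γ A.s
/-- the end point -/
def fin (A : Arc) : ℂ := A.Γ A.t
/-- the increment of `log (z - a)` -/
noncomputable def inc (A : Arc) (a : ℂ) : ℂ := MP_920d98_co.inc A.Γ A.s A.t a
/-- the reversed arc -/
def rev (A : Arc) : Arc :=
  ⟨fun x => A.Γ (-x), -A.t, -A.s, A.cont.comp continuous_neg, neg_le_neg A.le⟩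

variable (A : Arc)

theorem compact : IsCompact A.im := isCompact_Icc.image A.cont
theorem ini_mem : A.ini ∈ A.im := ⟨_, left_mem_Icc.2 A.le, rfl⟩
theorem fin_mem : A.fin ∈ A.im := ⟨_, right_mem_Icc.2 A.le, rfl⟩
theorem rev_ini : A.rev.ini = A.fin := by simp [rev, ini, fin]
theorem rev_fin : A.rev.fin = A.ini := by simp [rev, ini, fin]
theorem rev_im : A.rev.im = A.im := by
  ext z
  constructor
  · rintro ⟨x, hx, rfl⟩
    exact ⟨-x, ⟨le_neg.1 hx.2, neg_le.1 hx.1⟩, rfl⟩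
  · rintro ⟨x, hx, rfl⟩
    exact ⟨-x, ⟨neg_le_neg hx.2, neg_le_neg hx.1⟩, by simp [rev]⟩
theorem rev_inc (ha : a ∉ A.im) : A.rev.inc a = -A.inc a := inc_rev A.cont A.le ha

theorem lift (ha : a ∉ A.im) : ∃ G, IsLift A.Γ A.s A.t a G ∧ A.inc a = G A.t - G A.s :=
  let ⟨G, hG⟩ := exists_lift A.cont A.le ha
  ⟨G, hG, hG.inc_eq A.le⟩

theorem exp_inc (ha : a ∉ A.im) : exp (A.inc a) = (A.fin - a) / (A.ini - a) := by
  obtain ⟨G, hG, e⟩ := A.lift ha
  rw [e, exp_sub, hG.2 _ (left_mem_Icc.2 A.le), hG.2 _ (right_mem_Icc.2 A.le)]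
  rfl

theorem inc_of_log {L : ℂ → ℂ} (hL : ContinuousOn L A.im) (h : ∀ z ∈ A.im, exp (L z) = z - a) :
    A.inc a = L A.fin - L A.ini :=
  IsLift.inc_eq (G := fun x => L (A.Γ x))
    ⟨hL.comp A.cont.continuousOn (mapsTo_image _ _), fun x hx => h _ ⟨x, hx, rfl⟩⟩ A.le

theorem inc_sub_of_log (ha : a ∉ A.im) {L : ℂ → ℂ} (hL : ContinuousOn L A.im)
    (h : ∀ z ∈ A.im, exp (L z) = (z - b) / (z - a)) :
    A.inc b = A.inc a + (L A.fin - L A.ini) := by
  obtain ⟨G, hG, e⟩ := A.lift ha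
  have : IsLift A.Γ A.s A.t b fun x => G x + L (A.Γ x) :=
    ⟨hG.1.add (hL.comp A.cont.continuousOn (mapsTo_image _ _)), fun x hx => by
      have h0 : A.Γ x - a ≠ 0 := fun h' => ha ⟨x, hx, sub_eq_zero.1 h'⟩
      rw [exp_add, hG.2 x hx, h _ ⟨x, hx, rfl⟩, mul_div_cancel₀ _ h0]⟩
  rw [e, inc, this.inc_eq A.le, ini, fin]
  ring

end Arc

section chain

variable {ι : Type} [Fintype ι] {A : ι → Arc} {y : ι → ℂ}

/-- the winding sum of the chain with coefficients `y` -/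
noncomputable def W (A : ι → Arc) (y : ι → ℂ) (a : ℂ) : ℂ := ∑ i, y i * (A i).inc a

/-- the chain has no boundary -/
def Closed (A : ι → Arc) (y : ι → ℂ) : Prop :=
  ∀ g : ℂ → ℂ, ∑ i, y i * (g (A i).fin - g (A i).ini) = 0

/-- the support of the chain -/
def supp (A : ι → Arc) (y : ι → ℂ) : Set ℂ := {z | ∃ i, y i ≠ 0 ∧ z ∈ (A i).im}

omit [Fintype ι] in
theorem supp_compact [Finite ι] (A : ι → Arc) (y : ι → ℂ) : IsCompact (supp A y) := by
  have : supp A y = ⋃ i ∈ {i | y i ≠ 0}, (A i).im := by ext z; simp [supp]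
  rw [this]
  exact (toFinite _).isCompact_biUnion fun i _ => (A i).compact

theorem W_eq_of_log (h : Closed A y) (ha : a ∉ supp A y)
    (hl : HasLog (supp A y) fun z => (z - b) / (z - a)) : W A y b = W A y a := by
  obtain ⟨L, hL, hL'⟩ := hl
  rw [W, W, ← sub_eq_zero, ← Finset.sum_sub_distrib, ← h L]
  refine Finset.sum_congr rfl fun i _ => ?_
  by_cases hy : y i = 0
  · simp [hy]
  have hs : (A i).im ⊆ supp A y := fun z hz => ⟨i, hy, hz⟩
  rw [(A i).inc_sub_of_log (fun h' => ha (hs h')) (hL.mono hs) fun z hz => hL' z (hs hz)]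
  ring

theorem W_zero_of_log (h : Closed A y) (hl : HasLog (supp A y) fun z => z - a) :
    W A y a = 0 := by
  obtain ⟨L, hL, hL'⟩ := hl
  rw [W, ← h L]
  refine Finset.sum_congr rfl fun i _ => ?_
  by_cases hy : y i = 0
  · simp [hy]
  have hs : (A i).im ⊆ supp A y := fun z hz => ⟨i, hy, hz⟩
  rw [(A i).inc_of_log (hL.mono hs) fun z hz => hL' z (hs hz)]

theorem W_eventually (h : Closed A y) (ha : a ∉ supp A y) : ∀ᶠ b in 𝓝 a, W A y b = W A y a := by
  obtain ⟨r, hr, hr'⟩ := Metric.isOpen_iff.1 (supp_compact A y).isClosed.isOpen_compl a ha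
  filter_upwards [ball_mem_nhds a hr] with b hb
  refine W_eq_of_log h ha (hasLog_near fun z hz => ?_)
  rw [mem_ball, dist_eq_norm] at hb
  refine hb.trans_le (not_lt.1 fun h' => hr' ?_ hz)
  rwa [mem_ball, dist_eq_norm]

theorem W_const (h : Closed A y) {S : Set ℂ} (hS : IsPreconnected S)
    (hd : ∀ z ∈ S, z ∉ supp A y) (ha : a ∈ S) (hb : b ∈ S) : W A y a = W A y b := by
  refine hS.induction₂' (fun a b => W A y a = W A y b) (fun x hx => ?_) ?_ ha hb
  · filter_upwards [nhdsWithin_le_nhds (W_eventually h (hd x hx))] with z hz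
    exact ⟨hz.symm, hz⟩
  · intro a b c _ _ _ h1 h2
    exact h1.trans h2

theorem W_zero (h : Closed A y) {S : Set ℂ} (hS : IsPreconnected S)
    (hd : ∀ z ∈ S, z ∉ supp A y) (hu : ¬ Bornology.IsBounded S) (ha : a ∈ S) : W A y a = 0 := by
  obtain ⟨R, hR0, hR⟩ := (supp_compact A y).isBounded.exists_pos_norm_le
  obtain ⟨b, hb, hb'⟩ := exists_far hu R
  rw [W_const h hS hd ha hb]
  exact W_zero_of_log h (hasLog_far (fun z hz => (hR z hz).trans_lt hb')
    (norm_pos_iff.1 (hR0.trans hb')))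

omit [Fintype ι] in
/-- logarithms on a plane graph -/
theorem hasLog_graph [Finite ι]
    (hx : ∀ i j, ∀ x ∈ Ioo (A i).s (A i).t, ∀ x' ∈ Icc (A j).s (A j).t,
      (A i).Γ x = (A j).Γ x' → i = j ∧ x = x')
    (ha : ∀ i, a ∉ (A i).im) (hb : ∀ i, b ∉ (A i).im) {p q : ℤ} {g : ℂ → ℂ}
    (h1 : ∀ i, exp (g (A i).ini) = ((A i).ini - a) ^ q / ((A i).ini - b) ^ p)
    (h2 : ∀ i, g (A i).fin - g (A i).ini = q * (A i).inc a - p * (A i).inc b) :
    HasLog (⋃ i, (A i).im) fun z => (z - a) ^ q / (z - b) ^ p := by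
  choose Ga hGa eGa using fun i => (A i).lift (ha i)
  choose Gb hGb eGb using fun i => (A i).lift (hb i)
  have hend : ∀ i, ∀ x ∈ Icc (A i).s (A i).t, x ∉ Ioo (A i).s (A i).t →
      g (A i).ini + q * (Ga i x - Ga i (A i).s) - p * (Gb i x - Gb i (A i).s) = g ((A i).Γ x) := by
    intro i x hx1 hx2
    rcases hx1.1.eq_or_lt with rfl | h
    · simp [Arc.ini]
    · obtain rfl : x = (A i).t := le_antisymm hx1.2 (not_lt.1 fun h' => hx2 ⟨h, h'⟩)
      rw [← eGa, ← eGb]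
      change _ = g (A i).fin
      linear_combination (h2 i).symm
  obtain ⟨L, hL, hL'⟩ := glue (S := fun i => Icc (A i).s (A i).t) (fun i => isCompact_Icc)
    (π := fun i => (A i).Γ)
    (G := fun i x => g (A i).ini + q * (Ga i x - Ga i (A i).s) - p * (Gb i x - Gb i (A i).s))
    (fun i => (A i).cont.continuousOn)
    (fun i => (continuousOn_const.add (continuousOn_const.mul
      ((hGa i).1.sub continuousOn_const))).sub
      (continuousOn_const.mul ((hGb i).1.sub continuousOn_const)))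
    (fun i j x hxi x' hxj e => by
      by_cases c1 : x ∈ Ioo (A i).s (A i).t
      · obtain ⟨rfl, rfl⟩ := hx i j x c1 x' hxj e
        rfl
      by_cases c2 : x' ∈ Ioo (A j).s (A j).t
      · obtain ⟨rfl, rfl⟩ := hx j i x' c2 x hxi e.symm
        rfl
      rw [hend i x hxi c1, hend j x' hxj c2, e])
  refine ⟨L, hL, fun z hz => ?_⟩
  obtain ⟨i, x, hxi, rfl⟩ := mem_iUnion.1 hz
  have ha' : (A i).ini - a ≠ 0 := fun h => ha i (sub_eq_zero.1 h ▸ (A i).ini_mem)
  have hb' : (A i).ini - b ≠ 0 := fun h => hb i (sub_eq_zero.1 h ▸ (A i).ini_mem)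
  have hb'' : (A i).Γ x - b ≠ 0 := fun h => hb i ⟨x, hxi, sub_eq_zero.1 h⟩
  rw [hL' i x hxi, exp_sub, exp_add, exp_int_mul, exp_int_mul, exp_sub, exp_sub, h1,
    (hGa i).2 x hxi, (hGb i).2 x hxi, (hGa i).2 _ (left_mem_Icc.2 (A i).le),
    (hGb i).2 _ (left_mem_Icc.2 (A i).le), div_zpow, div_zpow]
  have := zpow_ne_zero q ha'
  have := zpow_ne_zero p hb'
  have := zpow_ne_zero p hb''
  simp only [Arc.ini] at *
  field_simp

end chain

/-- two arcs forming a simple closed curve -/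
structure Loop (A B : Arc) : Prop where
  e1 : A.fin = B.ini
  e2 : B.fin = A.ini
  ne : A.ini ≠ A.fin
  injA : ∀ x ∈ Ioo A.s A.t, ∀ x' ∈ Icc A.s A.t, A.Γ x = A.Γ x' → x = x'
  injB : ∀ x ∈ Ioo B.s B.t, ∀ x' ∈ Icc B.s B.t, B.Γ x = B.Γ x' → x = x'
  dA : ∀ x ∈ Ioo A.s A.t, A.Γ x ∉ B.im
  dB : ∀ x ∈ Ioo B.s B.t, B.Γ x ∉ A.im

theorem Loop.hasLog {A B : Arc} (h : Loop A B) (ha : a ∉ A.im ∪ B.im) (hb : b ∉ A.im ∪ B.im)
    {p q : ℤ} (e : q * (A.inc a + B.inc a) = p * (A.inc b + B.inc b)) :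
    HasLog (A.im ∪ B.im) fun z => (z - a) ^ q / (z - b) ^ p := by
  classical
  have ha' : A.ini - a ≠ 0 := fun h => ha (Or.inl (sub_eq_zero.1 h ▸ A.ini_mem))
  have hb' : A.ini - b ≠ 0 := fun h => hb (Or.inl (sub_eq_zero.1 h ▸ A.ini_mem))
  have hb'' : A.fin - b ≠ 0 := fun h => hb (Or.inl (sub_eq_zero.1 h ▸ A.fin_mem))
  have h0 := exp_log (div_ne_zero (zpow_ne_zero q ha') (zpow_ne_zero p hb'))
  set c := log ((A.ini - a) ^ q / (A.ini - b) ^ p)
  have := hasLog_graph (A := fun i : Bool => if i then A else B) (a := a) (b := b) (p := p) (q := q)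
    (g := fun z => if z = A.ini then c else c + q * A.inc a - p * A.inc b)
    (by
      rintro (_ | _) (_ | _) x hx x' hx' e
      · exact ⟨rfl, h.injB x hx x' hx' e⟩
      · exact (h.dB x hx ⟨x', hx', e.symm⟩).elim
      · exact (h.dA x hx ⟨x', hx', e.symm⟩).elim
      · exact ⟨rfl, h.injA x hx x' hx' e⟩)
    (by rintro (_ | _); exacts [fun h => ha (Or.inr h), fun h => ha (Or.inl h)])
    (by rintro (_ | _); exacts [fun h => hb (Or.inr h), fun h => hb (Or.inl h)])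
    (by
      rintro (_ | _)
      · simp only [Bool.false_eq_true, if_false, ← h.e1, if_neg h.ne.symm]
        rw [exp_sub, exp_add, exp_int_mul, exp_int_mul, h0, A.exp_inc fun h => ha (Or.inl h),
          A.exp_inc fun h => hb (Or.inl h), div_zpow, div_zpow]
        have := zpow_ne_zero q ha'
        have := zpow_ne_zero p hb'
        have := zpow_ne_zero p hb''
        field_simp
      · simp only [if_true, h0])
    (by
      rintro (_ | _)
      · simp only [Bool.false_eq_true, if_false, ← h.e1, if_neg h.ne.symm, h.e2, if_true]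
        linear_combination -e
      · simp only [if_true, if_neg h.ne.symm]
        ring)
  refine this.mono ?_
  rintro z (hz | hz)
  exacts [mem_iUnion.2 ⟨true, hz⟩, mem_iUnion.2 ⟨false, hz⟩]

section two

variable {A B : Arc} {ε : ℂ} {S : Set ℂ}

theorem two_closed (h : ∀ g : ℂ → ℂ, g A.fin - g A.ini + ε * (g B.fin - g B.ini) = 0) :
    Closed (fun i : Bool => if i then A else B) fun i => if i then 1 else ε := fun g => by
  simpa using h g

theorem two_supp (hd : ∀ z ∈ S, z ∉ A.im ∪ B.im) :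
    ∀ z ∈ S, z ∉ supp (fun i : Bool => if i then A else B) fun i => if i then 1 else ε := by
  rintro z hz ⟨_ | _, -, h⟩
  exacts [hd z hz (Or.inr h), hd z hz (Or.inl h)]

theorem two_const (h : ∀ g : ℂ → ℂ, g A.fin - g A.ini + ε * (g B.fin - g B.ini) = 0)
    (hS : IsPreconnected S) (hd : ∀ z ∈ S, z ∉ A.im ∪ B.im) (ha : a ∈ S) (hb : b ∈ S) :
    A.inc a + ε * B.inc a = A.inc b + ε * B.inc b := by
  simpa [W] using W_const (two_closed h) hS (two_supp hd) ha hb

theorem two_zero (h : ∀ g : ℂ → ℂ, g A.fin - g A.ini + ε * (g B.fin - g B.ini) = 0)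
    (hS : IsPreconnected S) (hd : ∀ z ∈ S, z ∉ A.im ∪ B.im) (hu : ¬ Bornology.IsBounded S)
    (ha : a ∈ S) : A.inc a + ε * B.inc a = 0 := by
  simpa [W] using W_zero (two_closed h) hS (two_supp hd) hu ha

theorem Loop.int (h : Loop A B) (ha : a ∉ A.im ∪ B.im) :
    ∃ m : ℤ, A.inc a + B.inc a = m * (2 * Real.pi * I) := by
  have ha' : A.ini - a ≠ 0 := fun h => ha (Or.inl (sub_eq_zero.1 h ▸ A.ini_mem))
  have ha'' : A.fin - a ≠ 0 := fun h => ha (Or.inl (sub_eq_zero.1 h ▸ A.fin_mem))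
  rw [← exp_eq_one_iff, exp_add, A.exp_inc fun h => ha (Or.inl h),
    B.exp_inc fun h => ha (Or.inr h), ← h.e1, h.e2]
  field_simp

theorem Loop.cc_eq (h : Loop A B) (ha : a ∉ A.im ∪ B.im) (hb : b ∉ A.im ∪ B.im)
    (ha0 : A.inc a + B.inc a ≠ 0) (hb0 : A.inc b + B.inc b ≠ 0) :
    connectedComponentIn (A.im ∪ B.im)ᶜ a = connectedComponentIn (A.im ∪ B.im)ᶜ b := by
  obtain ⟨p, hp⟩ := h.int ha
  obtain ⟨q, hq⟩ := h.int hb
  refine eilenberg (A.compact.union B.compact) ha hb (p := p) (q := q) ?_ ?_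
    (h.hasLog ha hb (by rw [hp, hq]; ring))
  · rintro rfl; simp [hp] at ha0
  · rintro rfl; simp [hq] at hb0

theorem Loop.eq_of_ne_zero (h : Loop A B) (ha : a ∉ A.im ∪ B.im) (hb : b ∉ A.im ∪ B.im)
    (ha0 : A.inc a + B.inc a ≠ 0) (hb0 : A.inc b + B.inc b ≠ 0) :
    A.inc a + B.inc a = A.inc b + B.inc b := by
  have := two_const (A := A) (B := B) (ε := 1) (fun g => by rw [h.e1, h.e2]; ring)
    (isPreconnected_connectedComponentIn (F := (A.im ∪ B.im)ᶜ) (x := a))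
    (fun z hz => connectedComponentIn_subset _ _ hz) (mem_connectedComponentIn ha)
    (b := b) (by rw [h.cc_eq ha hb ha0 hb0]; exact mem_connectedComponentIn hb)
  simpa using this

theorem Loop.unbounded (h : Loop A B) (ha : a ∉ A.im ∪ B.im) (ha0 : A.inc a + B.inc a = 0) :
    ¬ Bornology.IsBounded (connectedComponentIn (A.im ∪ B.im)ᶜ a) :=
  unbounded_of_hasLog (A.compact.union B.compact).isClosed ha
    ((h.hasLog ha ha (p := 0) (q := 1) (by simp [ha0])).congr fun z _ => by simp)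

end two

theorem Arc.compl_preconnected (A : Arc) (h : InjOn A.Γ (Icc A.s A.t)) :
    IsPreconnected A.imᶜ := by
  have hl : ∀ a ∉ A.im, HasLog A.im fun z => z - a := fun a ha => by
    obtain ⟨G, hG, -⟩ := A.lift ha
    obtain ⟨L, hL, hL'⟩ := glue (ι := Unit) (S := fun _ => Icc A.s A.t) (fun _ => isCompact_Icc)
      (π := fun _ => A.Γ) (G := fun _ => G) (fun _ => A.cont.continuousOn) (fun _ => hG.1)
      (fun _ _ x hx y hy e => by rw [h hx hy e])
    refine ⟨L, hL.mono (subset_iUnion (fun _ : Unit => A.Γ '' Icc A.s A.t) ()), ?_⟩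
    rintro _ ⟨x, hx, rfl⟩
    rw [hL' () x hx, hG.2 x hx]
  refine isPreconnected_of_forall_pair fun a ha b hb => ⟨_, connectedComponentIn_subset _ a,
    mem_connectedComponentIn ha, ?_, isPreconnected_connectedComponentIn⟩
  rw [eilenberg A.compact ha hb one_ne_zero one_ne_zero
    (((hl a ha).div (hl b hb)).congr fun z _ => by simp)]
  exact mem_connectedComponentIn hb

end Pool.Agent.MP_920d98_co
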