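import Pool.Agent.MP_920d98_co.Chain

set_option autoImplicit false

/-!
Jordan curves: inside, outside, and their boundaries.
-/

namespace Pool.Agent.MP_920d98_co

open Complex Set Topology Metric Filter

/-- a simple closed curve, parametrised with period one -/
structure Curve where
  Γ : ℝ → ℂ
  cont : Continuous Γ
  per : Function.Periodic Γ 1
  inj : ∀ x y, Γ x = Γ y → ∃ k : ℤ, y = x + k

namespace Curve

variable (C : Curve) {a b : ℂ}

/-- the points of the curve -/
def J : Set ℂ := range C.Γ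
/-- `2πi` times the winding number -/
noncomputable def wn (a : ℂ) : ℂ := inc C.Γ 0 1 a
/-- the inside -/
def In : Set ℂ := {a | a ∉ C.J ∧ C.wn a ≠ 0}
/-- the outside -/
def Out : Set ℂ := {a | a ∉ C.J ∧ C.wn a = 0}
/-- a piece of the curve -/
def arc (s t : ℝ) (h : s ≤ t) : Arc := ⟨C.Γ, s, t, C.cont, h⟩

theorem add_int (x : ℝ) (k : ℤ) : C.Γ (x + k) = C.Γ x := by
  simpa using C.per.int_mul k x

theorem mem_J (x : ℝ) : C.Γ x ∈ C.J := ⟨x, rfl⟩

theorem im_subset {s t : ℝ} (h : s ≤ t) : (C.arc s t h).im ⊆ C.J := image_subset_range _ _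

theorem J_eq (s : ℝ) : C.J = C.Γ '' Icc s (s + 1) := (C.per.image_Icc one_pos s).symm

theorem compact : IsCompact C.J := by
  rw [C.J_eq 0]; exact isCompact_Icc.image C.cont

theorem eq_of_close {x y : ℝ} (h : C.Γ x = C.Γ y) (h1 : x < y + 1) (h2 : y < x + 1) : x = y := by
  obtain ⟨k, rfl⟩ := C.inj x y h
  have a1 : (-1 : ℝ) < k := by linarith
  have a2 : (k : ℝ) < 1 := by linarith
  have : k = 0 := by
    have b1 : -1 < k := by exact_mod_cast a1
    have b2 : k < 1 := by exact_mod_cast a2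
    omega
  simp [this]

theorem exists_glift (ha : a ∉ C.J) : ∃ G : ℝ → ℂ, (∀ s t, s ≤ t → inc C.Γ s t a = G t - G s) ∧
    ∀ x, G (x + 1) = G x + C.wn a := by
  obtain ⟨G, hG, hG'⟩ := exists_log_univ (f := fun x => C.Γ x - a) (C.cont.sub continuous_const)
    fun x h => ha ⟨x, sub_eq_zero.1 h⟩
  have h1 : ∀ s t, s ≤ t → inc C.Γ s t a = G t - G s := fun s t h =>
    IsLift.inc_eq ⟨hG.continuousOn, fun x _ => hG' x⟩ h
  refine ⟨G, h1, fun x => ?_⟩
  have := const_of_exp isPreconnected_univ (g := fun x => G (x + 1)) (g' := G) (by fun_prop)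
    hG.continuousOn (fun x _ => by rw [hG', hG', C.per]) (mem_univ x) (mem_univ 0)
  rw [wn, h1 0 1 zero_le_one]
  simp only [zero_add] at this
  linear_combination this

theorem split (ha : a ∉ C.J) {s t : ℝ} (h1 : s ≤ t) (h2 : t ≤ s + 1) :
    (C.arc s t h1).inc a + (C.arc t (s + 1) h2).inc a = C.wn a := by
  obtain ⟨G, hG, hG'⟩ := C.exists_glift ha
  change inc C.Γ s t a + inc C.Γ t (s + 1) a = _
  rw [hG _ _ h1, hG _ _ h2, hG']
  ring

theorem split_im {s t : ℝ} (h1 : s ≤ t) (h2 : t ≤ s + 1) :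
    (C.arc s t h1).im ∪ (C.arc t (s + 1) h2).im = C.J := by
  rw [C.J_eq s, ← Icc_union_Icc_eq_Icc h1 h2, image_union]
  rfl

theorem loop {s t : ℝ} (h1 : s < t) (h2 : t < s + 1) :
    Loop (C.arc s t h1.le) (C.arc t (s + 1) h2.le) where
  e1 := rfl
  e2 := C.per s
  ne := fun h => h1.ne (C.eq_of_close h (by linarith) h2)
  injA := fun x hx x' hx' e => by
    obtain ⟨a1, a2⟩ : s < x ∧ x < t := hx
    obtain ⟨a3, a4⟩ : s ≤ x' ∧ x' ≤ t := hx'
    exact C.eq_of_close e (by linarith) (by linarith)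
  injB := fun x hx x' hx' e => by
    obtain ⟨a1, a2⟩ : t < x ∧ x < s + 1 := hx
    obtain ⟨a3, a4⟩ : t ≤ x' ∧ x' ≤ s + 1 := hx'
    exact C.eq_of_close e (by linarith) (by linarith)
  dA := by
    rintro x ⟨a1, a2⟩ ⟨x', ⟨a3, a4⟩, e⟩
    change s < x at a1; change x < t at a2; change t ≤ x' at a3; change x' ≤ s + 1 at a4
    have := C.eq_of_close e (by linarith) (by linarith)
    linarith
  dB := by
    rintro x ⟨a1, a2⟩ ⟨x', ⟨a3, a4⟩, e⟩
    change t < x at a1; change x < s + 1 at a2; change s ≤ x' at a3; change x' ≤ t at a4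
    have := C.eq_of_close e (by linarith) (by linarith)
    linarith

theorem half1 : (0 : ℝ) < 1 / 2 := by norm_num
theorem half2 : (1 / 2 : ℝ) < 0 + 1 := by norm_num

theorem wn_int (ha : a ∉ C.J) : ∃ m : ℤ, C.wn a = m * (2 * Real.pi * I) := by
  rw [← C.split ha half1.le half2.le]
  exact (C.loop half1 half2).int (by rwa [C.split_im])

theorem wn_const {S : Set ℂ} (hS : IsPreconnected S) (hd : ∀ z ∈ S, z ∉ C.J) (ha : a ∈ S)
    (hb : b ∈ S) : C.wn a = C.wn b := by
  have hl := C.loop half1 half2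
  have := two_const (A := C.arc 0 (1 / 2) half1.le) (B := C.arc (1 / 2) (0 + 1) half2.le) (ε := 1)
    (fun g => by rw [hl.e1, hl.e2]; ring) hS (by rwa [C.split_im]) ha hb
  rwa [one_mul, one_mul, C.split (hd a ha), C.split (hd b hb)] at this

theorem cc_subset_In (ha : a ∈ C.In) : connectedComponentIn C.Jᶜ a ⊆ C.In := fun z hz =>
  ⟨connectedComponentIn_subset _ _ hz, by
    rw [C.wn_const isPreconnected_connectedComponentIn (connectedComponentIn_subset _ _) hz
      (mem_connectedComponentIn ha.1)]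
    exact ha.2⟩

theorem cc_subset_Out (ha : a ∈ C.Out) : connectedComponentIn C.Jᶜ a ⊆ C.Out := fun z hz =>
  ⟨connectedComponentIn_subset _ _ hz, by
    rw [C.wn_const isPreconnected_connectedComponentIn (connectedComponentIn_subset _ _) hz
      (mem_connectedComponentIn ha.1)]
    exact ha.2⟩

theorem cc_In (ha : a ∈ C.In) : connectedComponentIn C.Jᶜ a = C.In := by
  refine (C.cc_subset_In ha).antisymm fun b hb => ?_
  have := (C.loop half1 half2).cc_eq (a := a) (b := b) (by rw [C.split_im]; exact ha.1)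
    (by rw [C.split_im]; exact hb.1) (by rw [C.split ha.1]; exact ha.2)
    (by rw [C.split hb.1]; exact hb.2)
  rw [C.split_im] at this
  rw [this]
  exact mem_connectedComponentIn hb.1

theorem cc_unbounded (ha : a ∈ C.Out) : ¬ Bornology.IsBounded (connectedComponentIn C.Jᶜ a) := by
  have := (C.loop half1 half2).unbounded (a := a) (by rw [C.split_im]; exact ha.1)
    (by rw [C.split ha.1]; exact ha.2)
  rwa [C.split_im] at this

theorem cc_Out (ha : a ∈ C.Out) : connectedComponentIn C.Jᶜ a = C.Out := by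
  refine (C.cc_subset_Out ha).antisymm fun b hb => ?_
  rw [cc_eq_of_unbounded C.compact.isBounded (C.cc_unbounded ha) (C.cc_unbounded hb)]
  exact mem_connectedComponentIn hb.1

theorem Out_unbounded (ha : a ∈ C.Out) : ¬ Bornology.IsBounded C.Out := by
  rw [← C.cc_Out ha]; exact C.cc_unbounded ha

theorem In_preconnected : IsPreconnected C.In := by
  rcases C.In.eq_empty_or_nonempty with h | ⟨a, ha⟩
  · rw [h]; exact isPreconnected_empty
  · rw [← C.cc_In ha]; exact isPreconnected_connectedComponentIn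

theorem Out_preconnected : IsPreconnected C.Out := by
  rcases C.Out.eq_empty_or_nonempty with h | ⟨a, ha⟩
  · rw [h]; exact isPreconnected_empty
  · rw [← C.cc_Out ha]; exact isPreconnected_connectedComponentIn

theorem mem_In_or_Out (ha : a ∉ C.J) : a ∈ C.In ∨ a ∈ C.Out := by
  by_cases h : C.wn a = 0
  exacts [Or.inr ⟨ha, h⟩, Or.inl ⟨ha, h⟩]

theorem not_In_of_Out (ha : a ∈ C.Out) : a ∉ C.In := fun h => h.2 ha.2

theorem In_const {S : Set ℂ} (hS : IsPreconnected S) (hd : ∀ z ∈ S, z ∉ C.J) (ha : a ∈ S)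
    (hb : b ∈ S) (h : a ∈ C.In) : b ∈ C.In :=
  ⟨hd b hb, by rw [← C.wn_const hS hd ha hb]; exact h.2⟩

theorem Out_const {S : Set ℂ} (hS : IsPreconnected S) (hd : ∀ z ∈ S, z ∉ C.J) (ha : a ∈ S)
    (hb : b ∈ S) (h : a ∈ C.Out) : b ∈ C.Out :=
  ⟨hd b hb, by rw [← C.wn_const hS hd ha hb]; exact h.2⟩

theorem subset_closure_cc (ha : a ∉ C.J) (hb : b ∉ C.J) (hab : b ∉ connectedComponentIn C.Jᶜ a) :
    C.J ⊆ closure (connectedComponentIn C.Jᶜ a) := by
  rintro _ ⟨x, rfl⟩
  by_contra hx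
  obtain ⟨r, hr, hr'⟩ := Metric.nhds_basis_closedBall.mem_iff.1
    (C.cont.continuousAt.preimage_mem_nhds (isClosed_closure.isOpen_compl.mem_nhds hx))
  set δ := min r (1 / 4) with hδ
  have d0 : 0 < δ := lt_min hr (by norm_num)
  have d1 : δ ≤ r := min_le_left _ _
  have d2 : δ ≤ 1 / 4 := min_le_right _ _
  have h1 : x - δ ≤ x + δ := by linarith
  have h2 : x + δ ≤ x - δ + 1 := by linarith
  have hp := (C.arc _ _ h2).compl_preconnected fun u hu v hv e => by
    obtain ⟨a1, a2⟩ : x + δ ≤ u ∧ u ≤ x - δ + 1 := hu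
    obtain ⟨a3, a4⟩ : x + δ ≤ v ∧ v ≤ x - δ + 1 := hv
    exact C.eq_of_close e (by linarith) (by linarith)
  refine hab (hp.subset_of_closure_inter_subset
    C.compact.isClosed.isOpen_compl.connectedComponentIn
    ⟨a, fun h => ha (C.im_subset h2 h), mem_connectedComponentIn ha⟩ ?_
    fun h => hb (C.im_subset h2 h))
  rintro z ⟨hz1, hz2⟩
  have hz1' := hz1
  rw [closure_eq_self_union_frontier] at hz1'
  refine hz1'.resolve_right fun hz => ?_
  have := frontier_cc C.compact.isClosed a hz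
  rw [← C.split_im h1 h2] at this
  obtain ⟨u, hu, rfl⟩ := this.resolve_right hz2
  obtain ⟨a1, a2⟩ : x - δ ≤ u ∧ u ≤ x + δ := hu
  refine hr' (a := u) ?_ hz1
  rw [mem_closedBall, Real.dist_eq, abs_le]
  constructor <;> linarith

theorem Out_nonempty : C.Out.Nonempty := by
  obtain ⟨R, hR0, hR⟩ := C.compact.isBounded.exists_pos_norm_le
  have hb : R < ‖((R + 1 : ℝ) : ℂ)‖ := by
    rw [norm_real, Real.norm_eq_abs, abs_of_pos (by linarith)]; linarith
  have hJ : ((R + 1 : ℝ) : ℂ) ∉ C.J := fun h => (hR _ h).not_gt hb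
  refine ⟨_, hJ, ?_⟩
  have hl := C.loop half1 half2
  have := two_zero (A := C.arc 0 (1 / 2) half1.le) (B := C.arc (1 / 2) (0 + 1) half2.le) (ε := 1)
    (fun g => by rw [hl.e1, hl.e2]; ring) (isPreconnected_far R)
    (by rw [C.split_im]; exact fun z hz h => (hR _ h).not_gt hz)
    (fun h => by
      obtain ⟨r, hr0, hr⟩ := h.exists_pos_norm_le
      have := hr ((R + r + 1 : ℝ) : ℂ) (by
        rw [mem_ofPred_eq, norm_real, Real.norm_eq_abs, abs_of_pos (by linarith)]; linarith)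
      rw [norm_real, Real.norm_eq_abs, abs_of_pos (by linarith)] at this
      linarith) hb
  rwa [one_mul, C.split hJ] at this

theorem subset_closure_In (h : C.In.Nonempty) : C.J ⊆ closure C.In := by
  obtain ⟨a, ha⟩ := h
  obtain ⟨b, hb⟩ := C.Out_nonempty
  rw [← C.cc_In ha]
  exact C.subset_closure_cc ha.1 hb.1 (by rw [C.cc_In ha]; exact C.not_In_of_Out hb)

theorem subset_closure_Out (h : C.In.Nonempty) : C.J ⊆ closure C.Out := by
  obtain ⟨a, ha⟩ := h
  obtain ⟨b, hb⟩ := C.Out_nonempty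
  rw [← C.cc_Out hb]
  exact C.subset_closure_cc hb.1 ha.1 (by rw [C.cc_Out hb]; exact fun h => C.not_In_of_Out h ha)

/-- the reversed curve -/
def rev : Curve where
  Γ x := C.Γ (-x)
  cont := C.cont.comp continuous_neg
  per x := by simpa [sub_eq_add_neg, add_comm] using C.per.sub_eq (-x)
  inj x y h := by
    obtain ⟨k, hk⟩ := C.inj _ _ h
    exact ⟨-k, by push_cast; linarith⟩

theorem rev_J : C.rev.J = C.J := neg_surjective.range_comp C.Γ

theorem rev_wn (ha : a ∉ C.J) : C.rev.wn a = -C.wn a := by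
  have h1 := inc_rev C.cont (s := -1) (t := 0) (by norm_num) fun h => ha (image_subset_range _ _ h)
  obtain ⟨G, hG, hG'⟩ := C.exists_glift ha
  have h2 := hG' (-1)
  rw [hG _ _ (by norm_num), neg_neg, neg_zero] at h1
  rw [neg_add_cancel] at h2
  change inc (fun x => C.Γ (-x)) 0 1 a = _
  rw [h1, h2]
  ring

/-- the curve is positively oriented with winding `μ` -/
def Pos (μ : ℂ) : Prop :=
  C.In.Nonempty ∧ (∀ a ∈ C.In, C.wn a = μ) ∧ ∃ m : ℤ, 0 < m ∧ μ = m * (2 * Real.pi * I)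

theorem exists_pos (h : C.In.Nonempty) : ∃ (C' : Curve) (μ : ℂ), C'.J = C.J ∧ C'.Pos μ := by
  obtain ⟨a, ha⟩ := h
  obtain ⟨m, hm⟩ := C.wn_int ha.1
  have hc : ∀ b ∈ C.In, C.wn b = C.wn a := fun b hb =>
    C.wn_const C.In_preconnected (fun z hz => hz.1) hb ha
  rcases lt_trichotomy m 0 with h | h | h
  · refine ⟨C.rev, -C.wn a, C.rev_J, ⟨a, by rw [C.rev_J]; exact ha.1, ?_⟩, fun b hb => ?_,
      -m, by omega, by rw [hm]; push_cast; ring⟩
    · rw [C.rev_wn ha.1]; exact neg_ne_zero.2 ha.2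
    · have hb1 : b ∉ C.J := by rw [← C.rev_J]; exact hb.1
      have hb2 := hb.2
      rw [C.rev_wn hb1] at hb2 ⊢
      rw [hc b ⟨hb1, neg_ne_zero.1 hb2⟩]
  · exact (ha.2 (by simp [hm, h])).elim
  · exact ⟨C, C.wn a, rfl, ⟨a, ha⟩, hc, m, h, hm⟩

theorem sep (ha : a ∉ C.J) (hb : b ∉ C.J) (hab : b ∉ connectedComponentIn C.Jᶜ a) :
    a ∈ C.In ∧ b ∈ C.Out ∨ a ∈ C.Out ∧ b ∈ C.In := by
  rcases C.mem_In_or_Out ha with h1 | h1 <;> rcases C.mem_In_or_Out hb with h2 | h2
  · exact (hab (by rwa [C.cc_In h1])).elim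
  · exact Or.inl ⟨h1, h2⟩
  · exact Or.inr ⟨h1, h2⟩
  · exact (hab (by rwa [C.cc_Out h1])).elim

/-- the curve of an injective map from the circle -/
noncomputable def ofCircle {γ : Circle → ℂ} (hc : Continuous γ) (hi : Function.Injective γ) :
    Curve where
  Γ x := γ (Circle.exp (2 * Real.pi * x))
  cont := by fun_prop
  per x := by beta_reduce; rw [mul_add, mul_one, Circle.periodic_exp]
  inj x y h := by
    obtain ⟨k, hk⟩ := Circle.exp_eq_exp.1 (hi h).symm
    refine ⟨k, mul_left_cancel₀ (a := 2 * Real.pi) (by positivity) ?_⟩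
    rw [hk]; ring

theorem ofCircle_J {γ : Circle → ℂ} (hc : Continuous γ) (hi : Function.Injective γ) :
    (ofCircle hc hi).J = range γ := by
  refine Function.Surjective.range_comp (f := fun x : ℝ => Circle.exp (2 * Real.pi * x))
    (fun z => ?_) γ
  obtain ⟨t, rfl⟩ := Circle.exp_surjective z
  exact ⟨t / (2 * Real.pi), by beta_reduce; rw [mul_div_cancel₀ _ (by positivity)]⟩

end Curve

end Pool.Agent.MP_920d98_co
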