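import Mathlib

set_option autoImplicit false

/-!
Continuous logarithms on plane sets, the theorems of Borsuk and Eilenberg.
-/

namespace Pool.Agent.MP_920d98_co

open Complex Set Topology Metric Filter

/-- `f` has a continuous logarithm on `K`. -/
def HasLog (K : Set ℂ) (f : ℂ → ℂ) : Prop :=
  ∃ L : ℂ → ℂ, ContinuousOn L K ∧ ∀ z ∈ K, exp (L z) = f z

theorem const_of_exp {X : Type} [TopologicalSpace X] {S : Set X} (hS : IsPreconnected S)
    {g g' : X → ℂ} (hg : ContinuousOn g S) (hg' : ContinuousOn g' S)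
    (h : ∀ x ∈ S, exp (g x) = exp (g' x)) {x y : X} (hx : x ∈ S) (hy : y ∈ S) :
    g x - g' x = g y - g' y := by
  have h1 : ∀ x ∈ S, exp (g x - g' x) = 1 := fun x hx => by
    rw [exp_sub, h x hx, div_self (exp_ne_zero _)]
  exact isCoveringMap_exp.constOn_of_comp hS (g := fun x => g x - g' x) (hg.sub hg')
    (fun a ha b hb => Subtype.ext ((h1 a ha).trans (h1 b hb).symm)) hx hy

theorem exists_log_univ {X : Type} [TopologicalSpace X] [LocallyPathConnectedSpace X]
    [ContractibleSpace X] {f : X → ℂ} (hf : Continuous f) (h0 : ∀ x, f x ≠ 0) :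
    ∃ L : X → ℂ, Continuous L ∧ ∀ x, exp (L x) = f x := by
  have hs : IsSimplyConnected (univ : Set X) :=
    (Homeomorph.Set.univ X).toHomotopyEquiv.simplyConnectedSpace_iff.2 inferInstance
  obtain ⟨L, hL, hL'⟩ := exists_continuousOn_eqOn_exp_comp hs isOpen_univ hf.continuousOn
    (by rintro ⟨x, -, hx⟩; exact h0 x hx)
  exact ⟨L, continuousOn_univ.1 hL, fun x => hL' (mem_univ x)⟩

theorem HasLog.mono {K K' : Set ℂ} {f : ℂ → ℂ} (h : HasLog K f) (hK : K' ⊆ K) : HasLog K' f :=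
  let ⟨L, h1, h2⟩ := h
  ⟨L, h1.mono hK, fun z hz => h2 z (hK hz)⟩

theorem HasLog.congr {K : Set ℂ} {f g : ℂ → ℂ} (h : HasLog K f) (hg : ∀ z ∈ K, f z = g z) :
    HasLog K g :=
  let ⟨L, h1, h2⟩ := h
  ⟨L, h1, fun z hz => (h2 z hz).trans (hg z hz)⟩

theorem HasLog.inv {K : Set ℂ} {f : ℂ → ℂ} (h : HasLog K f) : HasLog K fun z => (f z)⁻¹ :=
  let ⟨L, h1, h2⟩ := h
  ⟨fun z => -L z, h1.neg, fun z hz => by rw [exp_neg, h2 z hz]⟩

theorem HasLog.div {K : Set ℂ} {f g : ℂ → ℂ} (h : HasLog K f) (h' : HasLog K g) :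
    HasLog K fun z => f z / g z :=
  let ⟨L, h1, h2⟩ := h
  let ⟨L', h1', h2'⟩ := h'
  ⟨fun z => L z - L' z, h1.sub h1', fun z hz => by rw [exp_sub, h2 z hz, h2' z hz]⟩

theorem hasLog_of_slit {K : Set ℂ} {f : ℂ → ℂ} (hf : ContinuousOn f K) {c : ℂ} (hc : c ≠ 0)
    (h : ∀ z ∈ K, c * f z ∈ slitPlane) : HasLog K f := by
  refine ⟨fun z => log (c * f z) - log c,
    ((continuousOn_const.mul hf).clog h).sub continuousOn_const, fun z hz => ?_⟩
  rw [exp_sub, exp_log (slitPlane_ne_zero (h z hz)), exp_log hc]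
  field_simp

theorem hasLog_far {K : Set ℂ} {a : ℂ} (h : ∀ z ∈ K, ‖z‖ < ‖a‖) (ha : a ≠ 0) :
    HasLog K fun z => z - a := by
  refine hasLog_of_slit (c := -a⁻¹) (by fun_prop) (neg_ne_zero.2 (inv_ne_zero ha)) fun z hz => ?_
  have : -a⁻¹ * (z - a) = 1 + (-(z / a)) := by field_simp; ring
  rw [this]
  apply mem_slitPlane_of_norm_lt_one
  rw [norm_neg, norm_div, div_lt_one (norm_pos_iff.2 ha)]
  exact h z hz

theorem hasLog_near {K : Set ℂ} {a b : ℂ} (h : ∀ z ∈ K, ‖b - a‖ < ‖z - a‖) :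
    HasLog K fun z => (z - b) / (z - a) := by
  have h0 : ∀ z ∈ K, z - a ≠ 0 := fun z hz => norm_pos_iff.1 ((norm_nonneg _).trans_lt (h z hz))
  refine hasLog_of_slit (c := 1) (ContinuousOn.div (by fun_prop) (by fun_prop) h0) one_ne_zero
    fun z hz => ?_
  have : 1 * ((z - b) / (z - a)) = 1 + (-((b - a) / (z - a))) := by
    have := h0 z hz
    field_simp; ring
  rw [this]
  apply mem_slitPlane_of_norm_lt_one
  rw [norm_neg, norm_div, div_lt_one (norm_pos_iff.2 (h0 z hz))]
  exact h z hz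

/-- Borsuk: a nonzero power of `z - a` does not extend without zeros over a bounded open set
containing `a`. -/
theorem borsuk {U : Set ℂ} (hU : IsOpen U) (hb : Bornology.IsBounded U) {a : ℂ} (ha : a ∈ U)
    {h : ℂ → ℂ} (hh : ContinuousOn h (closure U)) (h0 : ∀ z ∈ closure U, h z ≠ 0) {q : ℤ}
    (hl : HasLog (frontier U) fun z => (z - a) ^ q / h z) : q = 0 := by
  classical
  obtain ⟨L, hL, hL'⟩ := hl
  obtain ⟨M, hM⟩ := ContinuousMap.exists_restrict_eq isClosed_frontier
    (⟨(frontier U).domRestrict L, continuousOn_iff_continuous_domRestrict.1 hL⟩ :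
      C(frontier U, ℂ))
  have hM' : ∀ z ∈ frontier U, M z = L z := fun z hz => congrArg (fun g => g ⟨z, hz⟩) hM
  have hne : ∀ z ∈ Uᶜ, z - a ≠ 0 := fun z hz e => hz (sub_eq_zero.1 e ▸ ha)
  have hF : Continuous (U.piecewise (fun z => h z * exp (M z)) fun z => (z - a) ^ q) := by
    refine continuous_piecewise (fun z hz => ?_) (hh.mul (by fun_prop)) ?_
    · rw [hM' z hz, hL' z hz, mul_div_cancel₀ _ (h0 z (frontier_subset_closure hz))]
    · rw [hU.isClosed_compl.closure_eq]
      exact ContinuousOn.zpow₀ (by fun_prop) q fun z hz => Or.inl (hne z hz)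
  obtain ⟨N, hN, hN'⟩ := exists_log_univ hF fun z => by
    by_cases hz : z ∈ U
    · rw [piecewise_eq_of_mem _ _ _ hz]
      exact mul_ne_zero (h0 z (subset_closure hz)) (exp_ne_zero _)
    · rw [piecewise_eq_of_notMem _ _ _ hz]
      exact zpow_ne_zero _ (hne z hz)
  obtain ⟨R, hR0, hR⟩ := hb.subset_ball_lt 0 a
  have key := const_of_exp isPreconnected_univ
    (g := fun t : ℝ => N (a + exp (Real.log R + t * I)))
    (g' := fun t : ℝ => q * (Real.log R + t * I)) (by fun_prop) (by fun_prop)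
    (fun t _ => by
      have : a + exp (Real.log R + t * I) ∉ U := fun hz => by
        have := hR hz
        rw [mem_ball, dist_eq_norm, add_sub_cancel_left, norm_exp] at this
        simp [Real.exp_log hR0] at this
      rw [hN', piecewise_eq_of_notMem _ _ _ this, add_sub_cancel_left, exp_int_mul])
    (mem_univ 0) (mem_univ (2 * Real.pi))
  have e : exp (Real.log R + ((2 * Real.pi : ℝ) : ℂ) * I) = exp (Real.log R + ((0 : ℝ) : ℂ) * I) := by
    rw [exp_add, exp_add]; push_cast; rw [exp_two_pi_mul_I]; simp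
  simp only [e] at key
  have : (q : ℂ) * (2 * Real.pi * I) = 0 := by
    push_cast at key
    linear_combination key
  exact_mod_cast (mul_eq_zero.1 this).resolve_right two_pi_I_ne_zero

theorem frontier_cc {K : Set ℂ} (hK : IsClosed K) (a : ℂ) :
    frontier (connectedComponentIn Kᶜ a) ⊆ K := by
  intro z hz
  by_contra hzK
  have ho : ∀ x, IsOpen (connectedComponentIn Kᶜ x) := fun x =>
    hK.isOpen_compl.connectedComponentIn
  obtain ⟨y, hy1, hy2⟩ := mem_closure_iff.1 hz.1 _ (ho z) (mem_connectedComponentIn hzK)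
  apply hz.2
  rw [(ho a).interior_eq, connectedComponentIn_eq hy2, ← connectedComponentIn_eq hy1]
  exact mem_connectedComponentIn hzK

theorem isPreconnected_far (R : ℝ) : IsPreconnected {z : ℂ | R < ‖z‖} := by
  rcases lt_or_ge R 0 with hR | hR
  · have : {z : ℂ | R < ‖z‖} = univ := eq_univ_of_forall fun z => hR.trans_le (norm_nonneg z)
    rw [this]; exact isPreconnected_univ
  have : {z : ℂ | R < ‖z‖} = (fun p : ℝ × ℝ => p.1 * exp (p.2 * I)) '' (Ioi R ×ˢ univ) := by
    ext z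
    constructor
    · intro hz
      exact ⟨(‖z‖, arg z), ⟨hz, mem_univ _⟩, norm_mul_exp_arg_mul_I z⟩
    · rintro ⟨p, ⟨hp, -⟩, rfl⟩
      have h1 : R < p.1 := hp
      simp only [mem_ofPred_eq, norm_mul, norm_real, norm_exp_ofReal_mul_I, mul_one,
        Real.norm_eq_abs]
      exact h1.trans_le (le_abs_self _)
  rw [this]
  exact (isPreconnected_Ioi.prod isPreconnected_univ).image _ (by fun_prop)

theorem exists_far {S : Set ℂ} (hS : ¬ Bornology.IsBounded S) (R : ℝ) : ∃ z ∈ S, R < ‖z‖ := by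
  by_contra h
  push Not at h
  exact hS ((isBounded_iff_forall_norm_le).2 ⟨R, h⟩)

theorem cc_eq_of_unbounded {K : Set ℂ} (hK : Bornology.IsBounded K) {a b : ℂ}
    (ha : ¬ Bornology.IsBounded (connectedComponentIn Kᶜ a))
    (hb : ¬ Bornology.IsBounded (connectedComponentIn Kᶜ b)) :
    connectedComponentIn Kᶜ a = connectedComponentIn Kᶜ b := by
  obtain ⟨R, hR⟩ := isBounded_iff_forall_norm_le.1 hK
  obtain ⟨x, hx, hx'⟩ := exists_far ha R
  obtain ⟨y, hy, hy'⟩ := exists_far hb R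
  rw [connectedComponentIn_eq hx, connectedComponentIn_eq hy]
  exact connectedComponentIn_eq ((isPreconnected_far R).subset_connectedComponentIn hx'
    (fun z hz hzK => (hR z hzK).not_gt hz) hy')

theorem eilenberg_aux {K : Set ℂ} (hK : IsClosed K) {a b : ℂ} (ha : a ∉ K) (hb : b ∉ K)
    {p q : ℤ} (hl : HasLog K fun z => (z - a) ^ q / (z - b) ^ p)
    (hU : Bornology.IsBounded (connectedComponentIn Kᶜ a))
    (hab : b ∉ connectedComponentIn Kᶜ a) : q = 0 := by
  have h0 : ∀ z ∈ closure (connectedComponentIn Kᶜ a), z - b ≠ 0 := fun z hz e => by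
    rw [sub_eq_zero.1 e, closure_eq_self_union_frontier] at hz
    exact hz.elim hab fun h => hb (frontier_cc hK a h)
  exact borsuk hK.isOpen_compl.connectedComponentIn hU (mem_connectedComponentIn ha)
    (h := fun z => (z - b) ^ p) (ContinuousOn.zpow₀ (by fun_prop) p fun z hz => Or.inl (h0 z hz))
    (fun z hz => zpow_ne_zero _ (h0 z hz)) (hl.mono (frontier_cc hK a))

/-- Eilenberg's criterion. -/
theorem eilenberg {K : Set ℂ} (hK : IsCompact K) {a b : ℂ} (ha : a ∉ K) (hb : b ∉ K)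
    {p q : ℤ} (hp : p ≠ 0) (hq : q ≠ 0) (hl : HasLog K fun z => (z - a) ^ q / (z - b) ^ p) :
    connectedComponentIn Kᶜ a = connectedComponentIn Kᶜ b := by
  by_contra hne
  by_cases h1 : Bornology.IsBounded (connectedComponentIn Kᶜ a)
  · exact hq (eilenberg_aux hK.isClosed ha hb hl h1 fun h => hne (connectedComponentIn_eq h))
  by_cases h2 : Bornology.IsBounded (connectedComponentIn Kᶜ b)
  · exact hp (eilenberg_aux hK.isClosed hb ha (hl.inv.congr fun z _ => inv_div _ _) h2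
      fun h => hne (connectedComponentIn_eq h).symm)
  exact hne (cc_eq_of_unbounded hK.isBounded h1 h2)

theorem unbounded_of_hasLog {K : Set ℂ} (hK : IsClosed K) {a : ℂ} (ha : a ∉ K)
    (hl : HasLog K fun z => z - a) : ¬ Bornology.IsBounded (connectedComponentIn Kᶜ a) :=
  fun hU => one_ne_zero (borsuk hK.isOpen_compl.connectedComponentIn hU
    (mem_connectedComponentIn ha) (h := fun _ => 1) continuousOn_const (fun _ _ => one_ne_zero)
    (q := 1) ((hl.mono (frontier_cc hK a)).congr fun z _ => by simp))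

/-- gluing along finitely many compact parameter sets -/
theorem glue {ι : Type} [Finite ι] {S : ι → Set ℝ} (hS : ∀ i, IsCompact (S i)) {π G : ι → ℝ → ℂ}
    (hπ : ∀ i, ContinuousOn (π i) (S i)) (hG : ∀ i, ContinuousOn (G i) (S i))
    (h : ∀ i j, ∀ x ∈ S i, ∀ y ∈ S j, π i x = π j y → G i x = G j y) :
    ∃ L : ℂ → ℂ, ContinuousOn L (⋃ i, π i '' S i) ∧ ∀ i, ∀ x ∈ S i, L (π i x) = G i x := by
  classical
  obtain ⟨L, hL⟩ : ∃ L : ℂ → ℂ, ∀ i, ∀ x ∈ S i, L (π i x) = G i x := by
    refine ⟨fun z => if h : ∃ p : ι × ℝ, p.2 ∈ S p.1 ∧ π p.1 p.2 = z then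
      G h.choose.1 h.choose.2 else 0, fun i x hx => ?_⟩
    have hex : ∃ p : ι × ℝ, p.2 ∈ S p.1 ∧ π p.1 p.2 = π i x := ⟨(i, x), hx, rfl⟩
    simp only [dif_pos hex]
    exact h _ _ _ hex.choose_spec.1 _ hx hex.choose_spec.2
  refine ⟨L, continuousOn_iff_isClosed.2 fun t ht => ?_, hL⟩
  refine ⟨⋃ i, π i '' (S i ∩ G i ⁻¹' t), isClosed_iUnion_of_finite fun i => ?_, ?_⟩
  · exact (((hS i).of_isClosed_subset ((hG i).preimage_isClosed_of_isClosed (hS i).isClosed ht)
      inter_subset_left).image_of_continuousOn ((hπ i).mono inter_subset_left)).isClosed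
  · ext z
    simp only [mem_inter_iff, mem_iUnion, mem_image, and_congr_left_iff]
    rintro ⟨i, x, hx, rfl⟩
    rw [mem_preimage, hL i x hx]
    constructor
    · intro hz
      exact ⟨i, x, ⟨hx, hz⟩, rfl⟩
    · rintro ⟨j, y, ⟨hy, hy'⟩, e⟩
      rw [← h j i y hy x hx e]
      exact hy'

end Pool.Agent.MP_920d98_co
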